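import Pool.Agent.Helper92.FR.GoalsA

/-! # FR-LCP: log-concavity, measurability and nonnegativity of `pp` -/

namespace Pool.Agent.Helper84.FR

open MeasureTheory Pool.Agent.Helper92.FR

theorem MM_pos (a : ℝ) : 0 < MM a := by
  unfold MM
  apply intervalIntegral.intervalIntegral_pos_of_pos
  · exact Continuous.intervalIntegrable (by fun_prop) _ _
  · intro x; exact Real.exp_pos _
  · norm_num

/-- LCP, assuming LCF. -/
theorem lcp (h : LcfStmt) : LcpStmt := by
  intro N d C S e lam T hS hT
  obtain ⟨h1, h2, h3⟩ := h N d C S hS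
  have hc : 0 < (∏ j, MM (aa C S lam j)) * |T.det| :=
    mul_pos (Finset.prod_pos fun j _ => MM_pos _) (abs_pos.2 hT)
  have hA : ∀ (x y : Fin d → ℝ) (t : ℝ) (i : Fin d),
      e i + T⁻¹.mulVec (fun i => (1 - t) * x i + t * y i) i =
        (1 - t) * (e i + T⁻¹.mulVec x i) + t * (e i + T⁻¹.mulVec y i) := by
    intro x y t i
    have : (fun i => (1 - t) * x i + t * y i) = (1 - t) • x + t • y := by
      ext i; simp [smul_eq_mul]
    rw [this, Matrix.mulVec_add, Matrix.mulVec_smul, Matrix.mulVec_smul]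
    simp only [Pi.add_apply, Pi.smul_apply, smul_eq_mul]
    ring
  refine ⟨?_, ?_, ?_⟩
  · intro x y t ht0 ht1
    unfold pp
    have e1 : (∑ i, lam i * (e i + T⁻¹.mulVec (fun i => (1 - t) * x i + t * y i) i)) =
        (1 - t) * (∑ i, lam i * (e i + T⁻¹.mulVec x i)) +
          t * (∑ i, lam i * (e i + T⁻¹.mulVec y i)) := by
      rw [Finset.mul_sum, Finset.mul_sum, ← Finset.sum_add_distrib]
      refine Finset.sum_congr rfl fun i _ => ?_
      rw [hA]; ring
    have e2 : (fun i => e i + T⁻¹.mulVec (fun i => (1 - t) * x i + t * y i) i) =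
        fun i => (1 - t) * (e i + T⁻¹.mulVec x i) + t * (e i + T⁻¹.mulVec y i) := by
      ext i; exact hA x y t i
    rw [e1, e2]
    have k := h1 (fun i => e i + T⁻¹.mulVec x i) (fun i => e i + T⁻¹.mulVec y i) t ht0 ht1
    generalize (∑ i, lam i * (e i + T⁻¹.mulVec x i)) = A
    generalize (∑ i, lam i * (e i + T⁻¹.mulVec y i)) = B
    have f1 := h3 (fun i => e i + T⁻¹.mulVec x i)
    have f2 := h3 (fun i => e i + T⁻¹.mulVec y i)
    revert k f1 f2
    generalize ff C S (fun i => e i + T⁻¹.mulVec x i) = u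
    generalize ff C S (fun i => e i + T⁻¹.mulVec y i) = v
    generalize ff C S (fun i => (1 - t) * (e i + T⁻¹.mulVec x i) + t * (e i + T⁻¹.mulVec y i)) = w
    revert hc
    generalize (∏ j, MM (aa C S lam j)) * |T.det| = c
    intro hc k f1 f2
    have g1 : (Real.exp A * u / c) ^ (1 - t) = Real.exp ((1 - t) * A) * u ^ (1 - t) / c ^ (1 - t) := by
      rw [Real.div_rpow (by positivity) hc.le, Real.mul_rpow (Real.exp_pos _).le f1,
        ← Real.exp_mul, mul_comm A]
    have g2 : (Real.exp B * v / c) ^ t = Real.exp (t * B) * v ^ t / c ^ t := by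
      rw [Real.div_rpow (by positivity) hc.le, Real.mul_rpow (Real.exp_pos _).le f2,
        ← Real.exp_mul, mul_comm B]
    have g3 : c ^ (1 - t) * c ^ t = c := by
      rw [← Real.rpow_add hc]; simp
    rw [g1, g2, Real.exp_add]
    calc Real.exp ((1 - t) * A) * u ^ (1 - t) / c ^ (1 - t) * (Real.exp (t * B) * v ^ t / c ^ t)
        = Real.exp ((1 - t) * A) * Real.exp (t * B) * (u ^ (1 - t) * v ^ t) /
            (c ^ (1 - t) * c ^ t) := by ring
      _ = Real.exp ((1 - t) * A) * Real.exp (t * B) * (u ^ (1 - t) * v ^ t) / c := by rw [g3]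
      _ ≤ Real.exp ((1 - t) * A) * Real.exp (t * B) * w / c := by gcongr
  · unfold pp
    have m1 : Measurable fun y : Fin d → ℝ => fun i => e i + T⁻¹.mulVec y i := by
      refine measurable_pi_lambda _ fun i => ?_
      simp only [Matrix.mulVec, dotProduct]
      fun_prop
    have m2 : Measurable fun y : Fin d → ℝ => ∑ i, lam i * (e i + T⁻¹.mulVec y i) := by
      refine Finset.measurable_sum _ fun i _ => ?_
      exact (((measurable_pi_apply i).comp m1)).const_mul _
    exact ((Real.measurable_exp.comp m2).mul (h2.comp m1)).div_const _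
  · intro y
    unfold pp
    exact div_nonneg (mul_nonneg (Real.exp_pos _).le (h3 _)) hc.le

end Pool.Agent.Helper84.FR
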