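import Pool.Agent.Helper92.FR.GoalsC

/-! # FR-PTG: the surrogate Hessian and the approximate gradient in polynomial time -/

namespace Pool.Agent.Helper84.FR

open Pool.Agent.Helper81.CC Pool.Agent.Bin Pool.Agent.Helper92.VP Pool.Agent.Helper92.FR

variable {α : Type} [ToData α]

@[fun_prop] theorem pt_dot {f g : α → List Qn} (hf : PolyTime f) (hg : PolyTime g) :
    PolyTime (fun a => dot (f a) (g a)) := by
  unfold dot
  fun_prop

@[fun_prop] theorem pt_invNat {f : α → ℕ} (hf : PolyTime f) :
    PolyTime (fun a => invNat (f a)) := by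
  unfold invNat
  fun_prop

@[fun_prop] theorem pt_qNat {f : α → ℕ} (hf : PolyTime f) :
    PolyTime (fun a => qNat (f a)) := by
  unfold qNat
  fun_prop

@[fun_prop] theorem pt_rj {f : α → Qn} (hf : PolyTime f) :
    PolyTime (fun a => rj (f a)) := by
  unfold rj
  fun_prop

@[fun_prop] theorem pt_slackCols {f : α → List Qn} (hf : PolyTime f) :
    PolyTime (fun a => slackCols (f a)) := by
  unfold slackCols
  fun_prop

@[fun_prop] theorem pt_cols {f : α → Nin} (hf : PolyTime f) :
    PolyTime (fun a => cols (f a)) := by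
  unfold cols
  fun_prop

@[fun_prop] theorem pt_nrow {f : α → Nin} (hf : PolyTime f) :
    PolyTime (fun a => nrow (f a)) := by
  unfold nrow
  fun_prop

@[fun_prop] theorem pt_hh {D : α → Nin} {lam : α → List Qn} (hD : PolyTime D)
    (hlam : PolyTime lam) : PolyTime (fun a => hh (D a) (lam a)) := by
  unfold hh
  fun_prop

@[fun_prop] theorem pt_pf {x : α → Qn} {k : α → ℕ} (hx : PolyTime x) (hk : PolyTime k) :
    PolyTime (fun a => pf (x a) (k a)) := by
  unfold pf
  fun_prop

@[fun_prop] theorem pt_serM {j K : α → ℕ} {x : α → Qn} (hj : PolyTime j) (hK : PolyTime K)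
    (hx : PolyTime x) : PolyTime (fun a => serM (j a) (K a) (x a)) := by
  unfold serM
  fun_prop

@[fun_prop] theorem pt_mtil {P K : α → ℕ} {x : α → Qn} (hP : PolyTime P) (hK : PolyTime K)
    (hx : PolyTime x) : PolyTime (fun a => mtil (P a) (K a) (x a)) := by
  unfold mtil
  fun_prop

@[fun_prop] theorem pt_gtil {D : α → Nin} {lam : α → List Qn} {P K : α → ℕ} (hD : PolyTime D)
    (hlam : PolyTime lam) (hP : PolyTime P) (hK : PolyTime K) :
    PolyTime (fun a => gtil (D a) (lam a) (P a) (K a)) := by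
  unfold gtil
  fun_prop

/-- PTG. -/
theorem ptg : PtgStmt := by
  intro α _ D lam P K hD hlam hP hK
  exact ⟨pt_hh hD hlam, pt_gtil hD hlam hP hK⟩

end Pool.Agent.Helper84.FR
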