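import Pool.Agent.Helper92.FR.GoalsC

/-! # FR-PTT: the normalising matrix and its determinant in polynomial time -/

namespace Pool.Agent.Helper84.FR

open Pool.Agent.Helper81.CC Pool.Agent.Bin Pool.Agent.Helper92.VP Pool.Agent.Helper92.FR

variable {α : Type} [ToData α]

@[fun_prop] theorem pt_scl {f : α → Qn} (hf : PolyTime f) :
    PolyTime (fun a => scl (f a)) := by
  unfold scl
  fun_prop

theorem pt_diag {e : α → List (List Qn)} {n : α → ℕ} (he : PolyTime e) (hn : PolyTime n) :
    PolyTime (fun a => (List.range (n a)).map fun i => ((e a).getD i []).getD i Qn.zero) := by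
  fun_prop

theorem pt_scaled {e : α → List (List Qn)} {p : α → List Qn} {n : α → ℕ} (he : PolyTime e)
    (hp : PolyTime p) (hn : PolyTime n) :
    PolyTime (fun a => (List.range (n a)).map fun i =>
      ((e a).getD i []).map fun x => Qn.mul (scl ((p a).getD i Qn.zero)) x) := by
  fun_prop

theorem pt_prodscl {p : α → List Qn} (hp : PolyTime p) :
    PolyTime (fun a => Qn.prod ((p a).map fun x => scl x)) := by
  fun_prop

/-- PTT, assuming PTE. -/
theorem ptt (hE : PteStmt) : PttStmt := by
  intro α _ A m W hA hm hW hmW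
  have h0 : PolyTime (fun a => elim (A a) (m a)) := hE α A m W hA hm hW hmW
  have hn : PolyTime (fun a => (A a).length) := by fun_prop
  have h1 : PolyTime (fun a => pivs (A a) (m a)) := pt_diag (PolyTime.fst h0) hn
  exact ⟨pt_scaled (PolyTime.snd h0) h1 hn, pt_prodscl h1⟩

end Pool.Agent.Helper84.FR
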