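import Pool.Agent.Helper92.FR.GoalsA

/-! # FR-TRQ: reflection and elementary bounds of the truncated exponential law -/

namespace Pool.Agent.Helper84.FR

open MeasureTheory Pool.Agent.Helper92.FR intervalIntegral

theorem MM_pos' (a : ℝ) : 0 < MM a := by
  unfold MM
  apply intervalIntegral.intervalIntegral_pos_of_pos
  · exact Continuous.intervalIntegrable (by fun_prop) _ _
  · intro x; exact Real.exp_pos _
  · norm_num

theorem MM_refl (a : ℝ) : MM a = Real.exp a * MM (-a) := by
  unfold MM
  have h := intervalIntegral.integral_comp_sub_left (a := (0 : ℝ)) (b := 1)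
    (fun x => Real.exp (a * x)) 1
  simp only [sub_self, sub_zero] at h
  rw [← h, ← intervalIntegral.integral_const_mul]
  refine intervalIntegral.integral_congr fun x _ => ?_
  show Real.exp (a * (1 - x)) = Real.exp a * Real.exp (-a * x)
  rw [← Real.exp_add]
  congr 1; ring

theorem II_refl (a : ℝ) : (∫ x in (0 : ℝ)..1, x * Real.exp (a * x)) =
    Real.exp a * (MM (-a) - ∫ x in (0 : ℝ)..1, x * Real.exp (-a * x)) := by
  unfold MM
  have h := intervalIntegral.integral_comp_sub_left (a := (0 : ℝ)) (b := 1)
    (fun x => x * Real.exp (a * x)) 1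
  simp only [sub_self, sub_zero] at h
  rw [← h, ← intervalIntegral.integral_sub
    (Continuous.intervalIntegrable (by fun_prop) _ _)
    (Continuous.intervalIntegrable (by fun_prop) _ _), ← intervalIntegral.integral_const_mul]
  refine intervalIntegral.integral_congr fun x _ => ?_
  show (1 - x) * Real.exp (a * (1 - x)) =
    Real.exp a * (Real.exp (-a * x) - x * Real.exp (-a * x))
  have : Real.exp (a * (1 - x)) = Real.exp a * Real.exp (-a * x) := by
    rw [← Real.exp_add]; congr 1; ring
  rw [this]; ring

theorem b_MM (b : ℝ) : b * MM (-b) = 1 - Real.exp (-b) := by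
  unfold MM
  have h : (∫ x in (0 : ℝ)..1, b * Real.exp (-b * x)) =
      (-Real.exp (-b * 1)) - (-Real.exp (-b * 0)) := by
    apply intervalIntegral.integral_eq_sub_of_hasDerivAt (f := fun x => -Real.exp (-b * x))
    · intro x _
      have h1 : HasDerivAt (fun x : ℝ => -b * x) (-b) x := by
        simpa using (hasDerivAt_id x).const_mul (-b)
      have h2 : HasDerivAt (fun x : ℝ => -Real.exp (-b * x)) (-(Real.exp (-b * x) * (-b))) x :=
        h1.exp.neg
      have h3 : -(Real.exp (-b * x) * (-b)) = b * Real.exp (-b * x) := by ring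
      rw [h3] at h2
      exact h2
    · exact Continuous.intervalIntegrable (by fun_prop) _ _
  rw [intervalIntegral.integral_const_mul] at h
  rw [h]; simp; ring

theorem b_II (b : ℝ) : b * (∫ x in (0 : ℝ)..1, x * Real.exp (-b * x)) =
    MM (-b) - Real.exp (-b) := by
  have h : (∫ x in (0 : ℝ)..1, (Real.exp (-b * x) - b * (x * Real.exp (-b * x)))) =
      (1 * Real.exp (-b * 1)) - (0 * Real.exp (-b * 0)) := by
    apply intervalIntegral.integral_eq_sub_of_hasDerivAt (f := fun x => x * Real.exp (-b * x))
    · intro x _
      have h1 : HasDerivAt (fun x : ℝ => -b * x) (-b) x := by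
        simpa using (hasDerivAt_id x).const_mul (-b)
      have h2 : HasDerivAt (fun x : ℝ => x * Real.exp (-b * x))
          (1 * Real.exp (-b * x) + x * (Real.exp (-b * x) * (-b))) x :=
        (hasDerivAt_id x).mul h1.exp
      have h3 : 1 * Real.exp (-b * x) + x * (Real.exp (-b * x) * (-b)) =
          Real.exp (-b * x) - b * (x * Real.exp (-b * x)) := by ring
      rw [h3] at h2
      exact h2
    · exact Continuous.intervalIntegrable (by fun_prop) _ _
  rw [intervalIntegral.integral_sub (Continuous.intervalIntegrable (by fun_prop) _ _)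
    (Continuous.intervalIntegrable (by fun_prop) _ _), intervalIntegral.integral_const_mul] at h
  have h' : MM (-b) - b * (∫ x in (0 : ℝ)..1, x * Real.exp (-b * x)) = Real.exp (-b) := by
    unfold MM; rw [h]; simp
  linarith

theorem II_nonneg (a : ℝ) : 0 ≤ ∫ x in (0 : ℝ)..1, x * Real.exp (a * x) := by
  apply intervalIntegral.integral_nonneg (by norm_num)
  intro x hx
  exact mul_nonneg hx.1 (Real.exp_pos _).le

theorem II_le (a : ℝ) : (∫ x in (0 : ℝ)..1, x * Real.exp (a * x)) ≤ MM a := by
  unfold MM
  apply intervalIntegral.integral_mono_on (by norm_num)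
    (Continuous.intervalIntegrable (by fun_prop) _ _)
    (Continuous.intervalIntegrable (by fun_prop) _ _)
  intro x hx
  nlinarith [Real.exp_pos (a * x), hx.2]

theorem QQ_real (b : ℝ) : QQ (b : ℂ) = (MM (-b) : ℂ) := by
  unfold QQ MM
  rw [← intervalIntegral.integral_ofReal]
  refine intervalIntegral.integral_congr fun x _ => ?_
  simp

theorem QQ_norm (b s : ℝ) : ‖QQ (b + s * Complex.I)‖ ≤ MM (-b) := by
  unfold QQ MM
  refine (intervalIntegral.norm_integral_le_integral_norm (by norm_num)).trans ?_
  refine le_of_eq (intervalIntegral.integral_congr fun x _ => ?_)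
  show ‖Complex.exp (-(b + s * Complex.I) * x)‖ = Real.exp (-b * x)
  rw [Complex.norm_exp]
  congr 1
  simp

/-- TRQ. -/
theorem trq : TrqStmt := by
  refine ⟨?_, ?_, ?_⟩
  · intro a
    rcases le_total 0 a with h | h
    · rw [max_eq_left h, abs_of_nonneg h]; exact MM_refl a
    · rw [max_eq_right h, abs_of_nonpos h]; simp
  · intro a
    unfold mm
    rw [MM_refl a, II_refl a]
    have h1 := MM_pos' (-a)
    have h2 := Real.exp_pos a
    field_simp
  · intro b hb
    have h1 := MM_pos' (-b)
    have h2 := b_MM b
    have h3 := b_II b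
    have h4 := II_nonneg (-b)
    have h5 := II_le (-b)
    have hm0 : 0 ≤ mm (-b) := div_nonneg h4 h1.le
    have hm1 : mm (-b) ≤ 1 := (div_le_one h1).2 h5
    have hexp : Real.exp (-b) ≤ MM (-b) := by
      have : (∫ _x in (0 : ℝ)..1, Real.exp (-b)) ≤ MM (-b) := by
        unfold MM
        apply intervalIntegral.integral_mono_on (by norm_num)
          (Continuous.intervalIntegrable (by fun_prop) _ _)
          (Continuous.intervalIntegrable (by fun_prop) _ _)
        intro x hx
        apply Real.exp_le_exp.2
        nlinarith [hx.1, hx.2]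
      simpa using this
    have hbm : b * mm (-b) ≤ 1 := by
      unfold mm
      rw [← mul_div_assoc, div_le_one h1, h3]
      linarith [Real.exp_pos (-b)]
    refine ⟨?_, ?_, hm0, ?_, hbm, QQ_real b, QQ_norm b⟩
    · rw [div_le_iff₀ (by linarith)]
      nlinarith
    · have : MM (-b) ≤ ∫ _x in (0 : ℝ)..1, (1 : ℝ) := by
        unfold MM
        apply intervalIntegral.integral_mono_on (by norm_num)
          (Continuous.intervalIntegrable (by fun_prop) _ _)
          (Continuous.intervalIntegrable (by fun_prop) _ _)
        intro x hx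
        rw [← Real.exp_zero]
        apply Real.exp_le_exp.2
        nlinarith [hx.1, hx.2]
      simpa using this
    · rw [le_div_iff₀ (by linarith)]
      nlinarith

end Pool.Agent.Helper84.FR
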